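import Pool.Agent.Helper87.RP.Defs

/-!
# MP_4e034d_co : the key lemma (module C3)
-/

namespace Pool.Agent.Helper87.RP

open Finset

variable {V : Type}

/-- module C3: the key lemma, the general position statement being a hypothesis. -/
theorem key_of_gp [Fintype V] [DecidableEq V]
    (gp : ∀ {k : ℕ} (G : V → Fin k → ℝ) (η : ℝ), 0 < η →
      ∃ F : V → Fin k → ℝ, (∀ u j, |F u j - G u j| < η) ∧
        ∀ (t : Finset V) (w : V → ℝ), t.Nonempty → (∀ u ∈ t, w u ≠ 0) →
          ∑ u ∈ t, w u • F u = 0 → k + 1 ≤ t.card)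
    {s : V → V → ℝ} (hs : Sg s) {S W : Finset V} {k : ℕ}
    (h : Idx s S k) (_hW : W ⊆ S) (hk : W.card = k) (i : V → V) (hi : ∀ u ∈ S \ W, i u ∈ W) :
    ∃ (t : Finset V) (e : V → ℝ), t ⊆ S \ W ∧ Bal s e t ∧ k + 1 ≤ t.card ∧
      ∃ u ∈ t, ∃ v ∈ t, i u = i v ∧ s (i u) u * s (i u) v * s u v = -1 := by
  classical
  rcases Nat.eq_zero_or_pos k with rfl | hkpos
  · obtain ⟨t, e, w, ht, ⟨u, hu⟩, -⟩ := h (fun _ _ => 0)
    have hW0 : W = ∅ := card_eq_zero.1 hk
    have := hi u (by rw [hW0]; simpa using ht hu)
    rw [hW0] at this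
    exact absurd this (notMem_empty _)
  have hkR : (1 : ℝ) ≤ k := by exact_mod_cast hkpos
  set δ : ℝ := 1 / (4 * k) with hδ
  have hδpos : 0 < δ := by positivity
  have hδk : (k : ℝ) * δ = 1 / 4 := by
    rw [hδ]
    field_simp
  have hδle : δ ≤ 1 / 4 := by
    nlinarith
  let ψ : {x // x ∈ W} ≃ Fin k := W.equivFinOfCardEq hk
  let X : Fin k → V := fun j => (ψ.symm j).1
  have hXW : ∀ j, X j ∈ W := fun j => (ψ.symm j).2
  have hX : ∀ x (hx : x ∈ W), X (ψ ⟨x, hx⟩) = x := fun x hx => by simp [X]
  have hXinj : Function.Injective X := fun a b hab => by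
    have : ψ.symm a = ψ.symm b := Subtype.ext hab
    exact ψ.symm.injective this
  let c : V → Fin k → ℝ := fun u j => if X j = i u then 1 else δ
  let G : V → Fin k → ℝ := fun u j => s (X j) u * c u j
  obtain ⟨F, hF, hgp⟩ := gp G (δ / 2) (by positivity)
  have hsq : ∀ u v, s u v * s u v = 1 := by
    intro u v
    rcases hs.pm u v with h1 | h1 <;> rw [h1] <;> norm_num
  -- lower and upper bounds for `s * F`
  have hlow : ∀ u j, c u j - δ / 2 ≤ s (X j) u * F u j := by
    intro u j
    have h1 := abs_lt.1 (hF u j)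
    have h2 : s (X j) u * G u j = c u j := by
      simp only [G]
      rw [← mul_assoc, hsq, one_mul]
    rcases hs.pm (X j) u with h3 | h3
    · rw [h3] at h2 ⊢
      linarith
    · rw [h3] at h2 ⊢
      linarith
  have hup : ∀ u j, |F u j| ≤ c u j + δ / 2 := by
    intro u j
    have h1 := (hF u j).le
    have h2 : |G u j| = c u j := by
      simp only [G, c]
      rw [abs_mul]
      have h4 : |s (X j) u| = 1 := by
        rcases hs.pm (X j) u with h3 | h3 <;> rw [h3] <;> norm_num
      rw [h4, one_mul]
      split_ifs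
      · norm_num
      · exact abs_of_pos hδpos
    have h3 : |F u j| ≤ |G u j| + |F u j - G u j| := by
      have := abs_add_le (G u j) (F u j - G u j)
      simpa using this
    linarith
  have hcpos : ∀ u j, δ ≤ c u j := by
    intro u j
    simp only [c]
    split_ifs
    · linarith
    · exact le_rfl
  obtain ⟨t, e, w, htS, htne, hbal, hw, hsum⟩ := h F
  have hee : ∀ u ∈ t, e u * e u = 1 := by
    intro u hu
    rcases hbal.1 u hu with h1 | h1 <;> rw [h1] <;> norm_num
  -- the set avoids `W`
  have hdisj : ∀ x ∈ t, x ∉ W := by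
    intro x hx hxW
    set j := ψ ⟨x, hxW⟩ with hj
    have hXj : X j = x := hX x hxW
    have h1 : ∑ u ∈ t, w u * e u * F u j = 0 := by
      have := congrFun hsum j
      simpa [Finset.sum_apply] using this
    have h2 : ∑ u ∈ t, e x * (w u * e u * F u j) = 0 := by
      rw [← mul_sum, h1, mul_zero]
    have h3 : ∀ u ∈ t, 0 < e x * (w u * e u * F u j) := by
      intro u hu
      have h4 : s (X j) u = e x * e u := by
        rw [hXj]
        exact hbal.2 x hx u hu
      have h5 := hlow u j
      rw [h4] at h5
      have h6 : 0 < e x * e u * F u j := by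
        have := hcpos u j
        linarith
      have h7 : e x * (w u * e u * F u j) = w u * (e x * e u * F u j) := by ring
      rw [h7]
      exact mul_pos (hw u hu) h6
    exact absurd h2 (sum_pos h3 htne).ne'
  have htSW : t ⊆ S \ W := fun u hu => mem_sdiff.2 ⟨htS hu, hdisj u hu⟩
  have hcard : k + 1 ≤ t.card := by
    refine hgp t (fun u => w u * e u) htne ?_ hsum
    intro u hu
    have h1 := hw u hu
    rcases hbal.1 u hu with h2 | h2 <;> rw [h2] <;> simp [h1.ne']
  refine ⟨t, e, htSW, hbal, hcard, ?_⟩
  by_contra hcon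
  push Not at hcon
  have hcon' : ∀ u ∈ t, ∀ v ∈ t, i u = i v → s (i u) u * e u = s (i u) v * e v := by
    intro u hu v hv huv
    have h1 := hcon u hu v hv huv
    rw [hbal.2 u hu v hv] at h1
    have h2 := hsq (i u) u
    have h3 := hsq (i u) v
    have h4 := hee u hu
    have h5 := hee v hv
    set a := s (i u) u
    set b := s (i u) v
    set c1 := e u
    set d1 := e v
    have h6 : (a * b * (c1 * d1) - 1) * (a * b * (c1 * d1) + 1) = 0 := by
      have : (a * b * (c1 * d1) - 1) * (a * b * (c1 * d1) + 1) =
          (a * a) * (b * b) * ((c1 * c1) * (d1 * d1)) - 1 := by ring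
      rw [this, h2, h3, h4, h5]
      norm_num
    have h7 : a * b * (c1 * d1) = 1 := by
      rcases mul_eq_zero.1 h6 with h7 | h7
      · linarith
      · exact absurd (by linarith) h1
    calc a * c1 = a * c1 * (a * b * (c1 * d1)) := by rw [h7, mul_one]
      _ = (a * a) * (c1 * c1) * (b * d1) := by ring
      _ = b * d1 := by rw [h2, h4]; ring
  -- total weight
  set Λ := ∑ u ∈ t, w u with hΛ
  have hΛpos : 0 < Λ := sum_pos hw htne
  have hclass : ∀ j : Fin k, (1 - δ / 2) * ∑ u ∈ t.filter (fun u => i u = X j), w u ≤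
      (3 / 2 * δ) * Λ := by
    intro j
    rcases (t.filter (fun u => i u = X j)).eq_empty_or_nonempty with h0 | ⟨v, hv⟩
    · rw [h0, sum_empty, mul_zero]
      positivity
    · obtain ⟨hvt, hvj⟩ := mem_filter.1 hv
      set σ := s (X j) v * e v with hσ
      have h1 : ∑ u ∈ t, w u * e u * F u j = 0 := by
        have := congrFun hsum j
        simpa [Finset.sum_apply] using this
      have h2 : ∑ u ∈ t, σ * (w u * e u * F u j) = 0 := by
        rw [← mul_sum, h1, mul_zero]
      rw [← sum_filter_add_sum_filter_not t (fun u => i u = X j)] at h2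
      have h3 : (1 - δ / 2) * ∑ u ∈ t.filter (fun u => i u = X j), w u ≤
          ∑ u ∈ t.filter (fun u => i u = X j), σ * (w u * e u * F u j) := by
        rw [mul_sum]
        refine sum_le_sum (fun u hu => ?_)
        obtain ⟨hut, huj⟩ := mem_filter.1 hu
        have h4 : s (X j) u * e u = σ := by
          have := hcon' u hut v hvt (huj.trans hvj.symm)
          rw [huj] at this
          exact this
        have h5 := hlow u j
        have h6 : c u j = 1 := if_pos huj.symm
        rw [h6] at h5
        have h7 : σ * (w u * e u * F u j) = w u * (s (X j) u * F u j) := by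
          rw [← h4]
          have := hee u hut
          calc s (X j) u * e u * (w u * e u * F u j) =
              (e u * e u) * (w u * (s (X j) u * F u j)) := by ring
            _ = _ := by rw [this, one_mul]
        rw [h7, mul_comm]
        exact mul_le_mul_of_nonneg_left h5 (hw u hut).le
      have h4 : -((3 / 2 * δ) * ∑ u ∈ t.filter (fun u => ¬ i u = X j), w u) ≤
          ∑ u ∈ t.filter (fun u => ¬ i u = X j), σ * (w u * e u * F u j) := by
        rw [mul_sum, ← sum_neg_distrib]
        refine sum_le_sum (fun u hu => ?_)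
        obtain ⟨hut, huj⟩ := mem_filter.1 hu
        have h5 := hup u j
        have h6 : c u j = δ := if_neg (fun h => huj h.symm)
        rw [h6] at h5
        have h8 : |σ * (w u * e u * F u j)| ≤ w u * (3 / 2 * δ) := by
          have h9 : |σ| = 1 := by
            rw [hσ, abs_mul]
            have h10 : |s (X j) v| = 1 := by
              rcases hs.pm (X j) v with h3 | h3 <;> rw [h3] <;> norm_num
            have h11 : |e v| = 1 := by
              rcases hbal.1 v hvt with h3 | h3 <;> rw [h3] <;> norm_num
            rw [h10, h11, one_mul]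
          have h12 : |e u| = 1 := by
            rcases hbal.1 u hut with h3 | h3 <;> rw [h3] <;> norm_num
          have h13 : |σ * (w u * e u * F u j)| = w u * |F u j| := by
            rw [abs_mul σ, abs_mul (w u * e u), abs_mul (w u), h9, h12, abs_of_pos (hw u hut),
              one_mul, mul_one]
          rw [h13]
          exact mul_le_mul_of_nonneg_left (by linarith) (hw u hut).le
        have := (abs_le.1 h8).1
        linarith
      have h5 : ∑ u ∈ t.filter (fun u => ¬ i u = X j), w u ≤ Λ := by
        rw [hΛ]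
        exact sum_le_sum_of_subset_of_nonneg (filter_subset _ _) (fun u hu _ => (hw u hu).le)
      have h6 : (3 / 2 * δ) * ∑ u ∈ t.filter (fun u => ¬ i u = X j), w u ≤ (3 / 2 * δ) * Λ :=
        mul_le_mul_of_nonneg_left h5 (by positivity)
      linarith
  have hall : ∑ j : Fin k, ∑ u ∈ t.filter (fun u => i u = X j), w u = Λ := by
    have h1 : ∀ j : Fin k, ∑ u ∈ t.filter (fun u => i u = X j), w u =
        ∑ u ∈ t, if i u = X j then w u else 0 := fun j => sum_filter _ _
    simp only [h1]
    rw [sum_comm, hΛ]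
    refine sum_congr rfl (fun u hu => ?_)
    have hiu : i u ∈ W := hi u (htSW hu)
    rw [sum_eq_single (ψ ⟨i u, hiu⟩)]
    · rw [if_pos (hX _ hiu).symm]
    · intro j _ hj
      rw [if_neg]
      intro h2
      apply hj
      apply hXinj
      rw [hX, h2]
    · intro h2
      exact absurd (mem_univ _) h2
  have hfin : (1 - δ / 2) * Λ ≤ k * ((3 / 2 * δ) * Λ) := by
    rw [← hall, mul_sum]
    calc ∑ j : Fin k, (1 - δ / 2) * ∑ u ∈ t.filter (fun u => i u = X j), w u
        ≤ ∑ _j : Fin k, (3 / 2 * δ) * Λ := sum_le_sum (fun j _ => hclass j)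
      _ = _ := by
        rw [sum_const, card_univ, Fintype.card_fin, nsmul_eq_mul, hall]
  have h1 : (k : ℝ) * ((3 / 2 * δ) * Λ) = 3 / 8 * Λ := by
    have : (k : ℝ) * ((3 / 2 * δ) * Λ) = (k * δ) * (3 / 2) * Λ := by ring
    rw [this, hδk]
    ring
  rw [h1] at hfin
  have h2 : (7 / 8 : ℝ) ≤ 1 - δ / 2 := by linarith
  nlinarith

end Pool.Agent.Helper87.RP
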