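import Pool.Agent.Helper87.RP.C3

/-!
# MP_4e034d_co : few patterns (module C4)
-/

namespace Pool.Agent.Helper87.RP

open Finset

variable {V : Type}

/-- module C4, the key lemma being a hypothesis. -/
theorem avoid_of_key [Fintype V] [DecidableEq V]
    {s : V → V → ℝ} (hs : Sg s) {S W : Finset V} {k : ℕ}
    (key : ∀ (i : V → V), (∀ u ∈ S \ W, i u ∈ W) →
      ∃ (t : Finset V) (e : V → ℝ), t ⊆ S \ W ∧ Bal s e t ∧ k + 1 ≤ t.card ∧
        ∃ u ∈ t, ∃ v ∈ t, i u = i v ∧ s (i u) u * s (i u) v * s u v = -1)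
    (hk : W.card = k) {v v' : V}
    (hT : ∀ (t : Finset V) (e : V → ℝ), t ⊆ S \ W → Bal s e t → k + 1 ≤ t.card → v ∈ t ∨ v' ∈ t)
    (a b : ℕ) (hab : a + b = k) :
    2 ^ a ≤ ((S \ W).filter fun u => s v u * s v' u * s v v' = 1).card ∨
      2 ^ b ≤ ((S \ W).filter fun u => s v u * s v' u * s v v' = -1).card := by
  classical
  by_contra hcon
  push Not at hcon
  obtain ⟨hU, hU'⟩ := hcon
  have hsq : ∀ u v, s u v * s u v = 1 := by
    intro u v
    rcases hs.pm u v with h1 | h1 <;> rw [h1] <;> norm_num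
  have hmul : ∀ x y : ℝ, (x = 1 ∨ x = -1) → (y = 1 ∨ y = -1) → (x * y = 1 ∨ x * y = -1) := by
    rintro x y (rfl | rfl) (rfl | rfl) <;> norm_num
  let p : V → V → ℝ := fun u x => s x u * s v u * s x v
  have hp : ∀ u x, p u x = 1 ∨ p u x = -1 := fun u x =>
    hmul _ _ (hmul _ _ (hs.pm _ _) (hs.pm _ _)) (hs.pm _ _)
  have hg : ∀ u, s v u * s v' u * s v v' = 1 ∨ s v u * s v' u * s v v' = -1 := fun u =>
    hmul _ _ (hmul _ _ (hs.pm _ _) (hs.pm _ _)) (hs.pm _ _)
  -- an unrealised pattern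
  have hpat : ∀ (U W₁ : Finset V), U.card < 2 ^ W₁.card → ∃ D ⊆ W₁, ∀ u ∈ U,
      ∃ x ∈ W₁, ¬ (x ∈ D ↔ p u x = 1) := by
    intro U W₁ hlt
    by_contra hne
    push Not at hne
    have h1 : W₁.powerset ⊆ U.image (fun u => W₁.filter (fun x => p u x = 1)) := by
      intro D hD
      obtain ⟨u, hu, hux⟩ := hne D (mem_powerset.1 hD)
      refine mem_image.2 ⟨u, hu, ?_⟩
      ext x
      rw [mem_filter]
      constructor
      · rintro ⟨h2, h3⟩
        exact (hux x h2).2 h3
      · intro h2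
        have h3 := mem_powerset.1 hD h2
        exact ⟨h3, (hux x h3).1 h2⟩
    have h2 := card_le_card h1
    rw [card_powerset] at h2
    exact absurd (h2.trans card_image_le) (not_le.2 hlt)
  obtain ⟨W₁, hW₁, hW₁c⟩ := exists_subset_card_eq (s := W) (n := a) (by omega)
  have hW₂c : (W \ W₁).card = b := by
    rw [card_sdiff_of_subset hW₁]
    omega
  obtain ⟨D₁, -, hD₁⟩ := hpat ((S \ W).filter fun u => s v u * s v' u * s v v' = 1) W₁
    (by rw [hW₁c]; exact hU)
  obtain ⟨D₂, -, hD₂⟩ := hpat ((S \ W).filter fun u => s v u * s v' u * s v v' = -1) (W \ W₁)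
    (by rw [hW₂c]; exact hU')
  have hch : ∀ u, ∃ x, u ∈ S \ W → ((s v u * s v' u * s v v' = 1 ∧ x ∈ W₁ ∧
      ¬ (x ∈ D₁ ↔ p u x = 1)) ∨ (s v u * s v' u * s v v' = -1 ∧ x ∈ W \ W₁ ∧
      ¬ (x ∈ D₂ ↔ p u x = 1))) := by
    intro u
    by_cases hu : u ∈ S \ W
    · rcases hg u with h1 | h1
      · obtain ⟨x, hx, hx'⟩ := hD₁ u (mem_filter.2 ⟨hu, h1⟩)
        exact ⟨x, fun _ => Or.inl ⟨h1, hx, hx'⟩⟩
      · obtain ⟨x, hx, hx'⟩ := hD₂ u (mem_filter.2 ⟨hu, h1⟩)
        exact ⟨x, fun _ => Or.inr ⟨h1, hx, hx'⟩⟩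
    · exact ⟨u, fun h => absurd h hu⟩
  choose i hi using hch
  obtain ⟨t, e, htS, hbal, hcard, u, hu, u', hu', hii, hneg⟩ := key i (by
    intro u hu
    rcases hi u hu with ⟨-, h1, -⟩ | ⟨-, h1, -⟩
    · exact hW₁ h1
    · exact (mem_sdiff.1 h1).1)
  set x := i u with hx
  have hee : ∀ y ∈ t, e y * e y = 1 := by
    intro y hy
    rcases hbal.1 y hy with h1 | h1 <;> rw [h1] <;> norm_num
  have hux := hi u (htS hu)
  have hux' := hi u' (htS hu')
  rw [← hx] at hux
  rw [← hii] at hux'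
  -- the two points have the same type and the same pattern at `x`
  have hsame : s v u * s v' u * s v v' = s v u' * s v' u' * s v v' ∧ p u x = p u' x := by
    have hiff : ∀ D : Finset V, ¬ (x ∈ D ↔ p u x = 1) → ¬ (x ∈ D ↔ p u' x = 1) →
        p u x = p u' x := by
      intro D h1 h2
      have h3 : p u x = 1 ↔ p u' x = 1 := by tauto
      rcases hp u x with h4 | h4
      · rw [h4, h3.1 h4]
      · rcases hp u' x with h5 | h5
        · rw [h5, h3.2 h5]
        · rw [h4, h5]
    rcases hux with ⟨h1, h2, h3⟩ | ⟨h1, h2, h3⟩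
    · rcases hux' with ⟨h4, h5, h6⟩ | ⟨h4, h5, h6⟩
      · exact ⟨h1.trans h4.symm, hiff _ h3 h6⟩
      · exact absurd h2 (mem_sdiff.1 h5).2
    · rcases hux' with ⟨h4, h5, h6⟩ | ⟨h4, h5, h6⟩
      · exact absurd h5 (mem_sdiff.1 h2).2
      · exact ⟨h1.trans h4.symm, hiff _ h3 h6⟩
  obtain ⟨hgg, hpp⟩ := hsame
  have hsuu : s u u' = s v u * s v u' := by
    rcases hT t e htS hbal hcard with h1 | h1
    · rw [hbal.2 u hu u' hu', hbal.2 v h1 u hu, hbal.2 v h1 u' hu']
      calc e u * e u' = (e v * e v) * (e u * e u') := by rw [hee v h1, one_mul]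
        _ = _ := by ring
    · have h2 : s u u' = s v' u * s v' u' := by
        rw [hbal.2 u hu u' hu', hbal.2 v' h1 u hu, hbal.2 v' h1 u' hu']
        calc e u * e u' = (e v' * e v') * (e u * e u') := by rw [hee v' h1, one_mul]
          _ = _ := by ring
      have h3 : (s v u * s v' u) * (s v u' * s v' u') = 1 := by
        have h4 : s v u * s v' u = s v u' * s v' u' := by
          have h5 : (s v u * s v' u) * (s v v' * s v v') = (s v u' * s v' u') * (s v v' * s v v') := by
            calc (s v u * s v' u) * (s v v' * s v v') = (s v u * s v' u * s v v') * s v v' := by ring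
              _ = (s v u' * s v' u' * s v v') * s v v' := by rw [hgg]
              _ = _ := by ring
          rw [hsq, mul_one, mul_one] at h5
          exact h5
        rw [h4]
        calc (s v u' * s v' u') * (s v u' * s v' u') =
            (s v u' * s v u') * (s v' u' * s v' u') := by ring
          _ = 1 := by rw [hsq, hsq]; norm_num
      rw [h2]
      calc s v' u * s v' u' = (s v u * s v u) * (s v u' * s v u') * (s v' u * s v' u') := by
            rw [hsq, hsq]; ring
        _ = (s v u * s v u') * ((s v u * s v' u) * (s v u' * s v' u')) := by ring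
        _ = s v u * s v u' := by rw [h3, mul_one]
  have h1 : p u x * p u' x = -1 := by
    calc p u x * p u' x = (s x u * s x u' * (s v u * s v u')) * (s x v * s x v) := by
          simp only [p]
          ring
      _ = s x u * s x u' * s u u' := by rw [hsq, mul_one, hsuu]
      _ = -1 := hneg
  rw [hpp] at h1
  rcases hp u' x with h2 | h2 <;> rw [h2] at h1 <;> norm_num at h1

end Pool.Agent.Helper87.RP
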