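import Pool.Agent.Helper87.RP.C4
import Pool.Agent.Helper42.RP.C2
import Pool.Agent.Helper37.RP.C5
import Pool.Agent.Helper77.RP.C6
import Pool.Agent.Helper97.RP.C1

/-!
# MP_4e034d_co : the combinatorial part, assembled
-/

namespace Pool.Agent.Helper87.RP

open Finset

variable {V : Type}

/-- The key lemma. -/
theorem key [Fintype V] [DecidableEq V] {s : V → V → ℝ} (hs : Sg s) {S W : Finset V} {k : ℕ}
    (h : Idx s S k) (hW : W ⊆ S) (hk : W.card = k) (i : V → V) (hi : ∀ u ∈ S \ W, i u ∈ W) :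
    ∃ (t : Finset V) (e : V → ℝ), t ⊆ S \ W ∧ Bal s e t ∧ k + 1 ≤ t.card ∧
      ∃ u ∈ t, ∃ v ∈ t, i u = i v ∧ s (i u) u * s (i u) v * s u v = -1 :=
  key_of_gp (fun G η hη => general_position G η hη) hs h hW hk i hi

/-- Few patterns. -/
theorem avoid [Fintype V] [DecidableEq V] {s : V → V → ℝ} (hs : Sg s) {S W : Finset V} {k : ℕ}
    (h : Idx s S k) (hW : W ⊆ S) (hk : W.card = k) {v v' : V}
    (hT : ∀ (t : Finset V) (e : V → ℝ), t ⊆ S \ W → Bal s e t → k + 1 ≤ t.card → v ∈ t ∨ v' ∈ t)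
    (a b : ℕ) (hab : a + b = k) :
    2 ^ a ≤ ((S \ W).filter fun u => s v u * s v' u * s v v' = 1).card ∨
      2 ^ b ≤ ((S \ W).filter fun u => s v u * s v' u * s v v' = -1).card :=
  avoid_of_key hs (fun i hi => key hs h hW hk i hi) hk hT a b hab

theorem stC4 : Helper37.RP.StC4 :=
  fun hs _ _ _ h hW hk _ _ _ _ hT a b hab => avoid hs h hW hk hT a b hab

theorem card_ge [Fintype V] [DecidableEq V] {s : V → V → ℝ} (hs : Sg s) {S : Finset V} {k : ℕ}
    (hk : 1 ≤ k) (h : Idx s S k) : (k + 2).choose 2 + (k - 1) / 2 ≤ S.card :=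
  Helper77.RP.card_ge (fun h _ ht => Helper97.RP.idx_sdiff hs h ht)
    (fun h => exists_bal h)
    (fun h hQ hq hS hn => Helper37.RP.avoid_one stC4 hs h hQ hq hS hn) hk h

theorem card_ge' [Fintype V] [DecidableEq V] {s : V → V → ℝ} (hs : Sg s) {S : Finset V} {k : ℕ}
    (hk : 12 ≤ k) (h : Idx s S k) : (k + 2).choose 2 + (k - 7) ≤ S.card :=
  Helper77.RP.card_ge' (fun h _ ht => Helper97.RP.idx_sdiff hs h ht)
    (fun h => exists_bal h)
    (fun h hQ hq hS hn => Helper37.RP.avoid_one stC4 hs h hQ hq hS hn)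
    (fun hk h hQ hq hS hn => Helper37.RP.avoid_two stC4 hs hk h hQ hq hS hn) hk h

end Pool.Agent.Helper87.RP
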