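import Mathlib

/-!
# MP_4e034d_co : vertices of triangulations of real projective space, definitions
-/

namespace Pool.Agent.Helper87.RP

open Finset

/-! ### Projective space and triangulations -/

/-- The unit sphere of dimension `d`. -/
abbrev Sph (d : ℕ) : Type := Metric.sphere (0 : EuclideanSpace ℝ (Fin (d + 1))) 1

/-- Two points of the sphere are equivalent if they are equal or antipodal. -/
def antip (d : ℕ) : Setoid (Sph d) where
  r x y := x = y ∨ x = -y
  iseqv :=
    { refl := fun _ => Or.inl rfl
      symm := by
        rintro x y (h | h)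
        · exact Or.inl h.symm
        · exact Or.inr (by rw [h, neg_neg])
      trans := by
        rintro x y z (h | h) (h' | h')
        · exact Or.inl (h.trans h')
        · exact Or.inr (h.trans h')
        · exact Or.inr (by rw [h, h'])
        · exact Or.inl (by rw [h, h', neg_neg]) }

/-- Real projective space of dimension `d`: the sphere modulo antipodes, with the quotient
topology. -/
def RPd (d : ℕ) : Type := Quotient (antip d)

instance (d : ℕ) : TopologicalSpace (RPd d) :=
  inferInstanceAs (TopologicalSpace (Quotient (antip d)))

/-- The projection of the sphere onto projective space. -/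
def prj (d : ℕ) : Sph d → RPd d := Quotient.mk (antip d)

theorem continuous_prj (d : ℕ) : Continuous (prj d) := continuous_quotient_mk'

theorem prj_eq_iff {d : ℕ} {x y : Sph d} : prj d x = prj d y ↔ x = y ∨ x = -y :=
  ⟨fun h => Quotient.exact h, fun h => Quotient.sound h⟩

theorem prj_surjective (d : ℕ) : Function.Surjective (prj d) := Quotient.mk_surjective

/-- The geometric realization of a finite simplicial complex `K` with vertex set `V`: the points
with nonnegative barycentric coordinates of sum one whose support lies in a face of `K`. -/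
def real {V : Type} [Fintype V] (K : AbstractSimplicialComplex V) : Set (V → ℝ) :=
  {x | (∀ v, 0 ≤ x v) ∧ ∑ v, x v = 1 ∧ ∃ f ∈ K.faces, ∀ v, x v ≠ 0 → v ∈ f}

/-! ### Signed complete graphs -/

variable {V : Type}

/-- A sign for each pair of points: symmetric, with values `1` and `-1`, and `1` on the
diagonal. -/
structure Sg (s : V → V → ℝ) : Prop where
  pm : ∀ u v, s u v = 1 ∨ s u v = -1
  symm : ∀ u v, s u v = s v u
  diag : ∀ u, s u u = 1

/-- The set `t` is balanced, `e` being a switching which makes all its signs positive. -/
def Bal (s : V → V → ℝ) (e : V → ℝ) (t : Finset V) : Prop :=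
  (∀ u ∈ t, e u = 1 ∨ e u = -1) ∧ ∀ u ∈ t, ∀ v ∈ t, s u v = e u * e v

/-- Every map of `S` into `ℝ ^ k` has a balanced set (with a switching `e`) such that the origin
is in the open convex hull of the vectors `e u • F u`. -/
def Idx (s : V → V → ℝ) (S : Finset V) (k : ℕ) : Prop :=
  ∀ F : V → Fin k → ℝ, ∃ (t : Finset V) (e w : V → ℝ), t ⊆ S ∧ t.Nonempty ∧ Bal s e t ∧
    (∀ u ∈ t, 0 < w u) ∧ ∑ u ∈ t, (w u * e u) • F u = 0

/-! ### Chains of lists of points (used for the Borsuk-Ulam theorem) -/

/-- Chains modulo 2 of lists of points. -/
abbrev Ch (E : Type) : Type := List E →₀ ZMod 2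

/-- The boundary of a list (the sum of the lists with one entry removed). -/
noncomputable def bd {E : Type} : List E → Ch E
  | [] => 0
  | x :: l => Finsupp.single l 1 + Finsupp.mapDomain (List.cons x) (bd l)

/-- The boundary operator. -/
noncomputable def dd {E : Type} : Ch E →ₗ[ZMod 2] Ch E := Finsupp.linearCombination (ZMod 2) bd

/-- The cone with apex `b`. -/
noncomputable def cone {E : Type} (b : E) : Ch E →ₗ[ZMod 2] Ch E :=
  Finsupp.lmapDomain (ZMod 2) (ZMod 2) (List.cons b)

/-- The antipodal map on chains. -/
noncomputable def nu {E : Type} [Neg E] : Ch E →ₗ[ZMod 2] Ch E :=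
  Finsupp.lmapDomain (ZMod 2) (ZMod 2) (List.map Neg.neg)

/-- A certificate of index `n`: chains `c 0, ..., c n` of lists of lengths `1, ..., n + 1` such
that the boundary of `c 0` is the empty list and the boundary of `c (j + 1)` is
`c j + nu (c j)`. -/
structure Cert {E : Type} [Neg E] (n : ℕ) (c : ℕ → Ch E) : Prop where
  zero : dd (c 0) = Finsupp.single [] 1
  succ : ∀ j < n, dd (c (j + 1)) = c j + nu (c j)
  len : ∀ j ≤ n, ∀ l ∈ (c j).support, l.length = j + 1

end Pool.Agent.Helper87.RP
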